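import Pool.Agent.H6.NB.Targets

/-!
# An oracle with NP in BQP and Σ₂ not in BQP: modules LOC EXB STB CHV EVC BLD BLU SWA
-/

set_option autoImplicit false

namespace Pool.Agent.H54.NB

open Finset Pool.Agent.H6.NB

/-- LOC -/
theorem t_loc : T_LOC := by
  intro X Yv Ω lev t j G hG Y e e' h
  have key : ∀ e e' : Ω → Bool, (∀ s, lev s < j → e s = e' s) → G Y e = true →
      G Y e' = true := by
    intro e e' h h1
    obtain ⟨A, B, _, hB, hc⟩ := hG Y e h1
    exact hc Y e' (fun p _ => Iff.rfl) (fun s hs => (h s (hB s hs)).symm)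
  rw [Bool.eq_iff_iff]
  exact ⟨key e e' h, key e' e (fun s hs => (h s hs).symm)⟩

section

variable {X Yv Ω : Type} [DecidableEq X] {acc : Ω → Fn X Yv Ω} {lev : Ω → ℕ} {t h : ℕ}

omit [DecidableEq X] in
theorem el_stab (h1 : T_LOC) (hL : Lvl acc lev t h) (Y : X → Option Yv) (θ : Ω → Bool) (k : ℕ) :
    ∀ s, lev s < k → ∀ k', k ≤ k' → el acc Y θ k' s = el acc Y θ k s := by
  induction k with
  | zero => intro s hs; omega
  | succ k ih =>
    intro s hs k' hk'
    obtain ⟨k'', rfl⟩ : ∃ k'', k' = k'' + 1 := ⟨k' - 1, by omega⟩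
    show xor (acc s Y (el acc Y θ k'')) (θ s) = xor (acc s Y (el acc Y θ k)) (θ s)
    rw [h1 X Yv Ω lev t (lev s) (acc s) (hL.cert s) Y (el acc Y θ k'') (el acc Y θ k)
      (fun s' hs' => ih s' (by omega) k'' (by omega))]

omit [DecidableEq X] in
theorem el_fix (h1 : T_LOC) (hL : Lvl acc lev t h) (Y : X → Option Yv) (θ : Ω → Bool) (s : Ω) :
    el acc Y θ h s = xor (acc s Y (el acc Y θ h)) (θ s) :=
  (el_stab h1 hL Y θ h s (hL.lt s) (h + 1) (by omega)).symm

end

/-- EXB -/
theorem t_exb (h1 : T_LOC) : T_EXB := by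
  intro X Yv Ω _ acc lev t h hL
  have loc : ∀ s Y (e e' : Ω → Bool), (∀ s', lev s' < lev s → e s' = e' s') →
      acc s Y e = acc s Y e' := fun s Y e e' hh =>
    h1 X Yv Ω lev t (lev s) (acc s) (hL.cert s) Y e e' hh
  have p3 : ∀ Y e x s, dlt acc h Y e x s =
      xor (acc s Y e) (acc s (sta Y x) (ex acc h Y e x)) := by
    intro Y e x s
    have h2 : ex acc h Y e x s = xor (acc s (sta Y x) (ex acc h Y e x)) (tht acc Y e s) :=
      el_fix h1 hL (sta Y x) (tht acc Y e) s
    unfold dlt
    rw [h2]
    unfold tht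
    generalize acc s (sta Y x) (ex acc h Y e x) = a
    generalize acc s Y e = b
    cases e s <;> cases a <;> cases b <;> rfl
  refine ⟨fun Y θ s => el_fix h1 hL Y θ s, ?_, p3, ?_⟩
  · intro Y θ e he
    have key : ∀ n s, lev s < n → e s = el acc Y θ h s := by
      intro n
      induction n with
      | zero => intro s hs; omega
      | succ n ih =>
        intro s hs
        rw [he s, el_fix h1 hL, loc s Y e (el acc Y θ h) (fun s' hs' => ih s' (by omega))]
    funext s
    exact key (lev s + 1) s (by omega)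
  · intro Y e e' x
    have key : ∀ n s, lev s < n → (∀ s', lev s' < lev s → e s' = e' s') →
        dlt acc h Y e x s = dlt acc h Y e' x s := by
      intro n
      induction n with
      | zero => intro s hs; omega
      | succ n ih =>
        intro s hs hee
        rw [p3, p3, loc s Y e e' hee,
          loc s (sta Y x) (ex acc h Y e x) (ex acc h Y e' x) (fun s' hs' => ?_)]
        have h3 := ih s' (by omega) (fun s'' hs'' => hee s'' (by omega))
        unfold dlt at h3
        rw [hee s' hs'] at h3
        revert h3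
        cases e' s' <;> cases ex acc h Y e x s' <;> cases ex acc h Y e' x s' <;> simp
    intro s hee
    exact key (lev s + 1) s (by omega) hee

/-- STB -/
theorem t_stb (h1 : T_EXB) : T_STB := by
  classical
  intro X Yv Ω _ _ _ _ acc lev t h j k K G Y Z hL
  obtain ⟨_, _, _, h4⟩ := h1 X Yv Ω acc lev t h hL
  have hd : ∀ e x s, lev s ≤ j →
      dlt acc h Y (fl acc lev h Y j e Z) x s = dlt acc h Y e x s := by
    intro e x s hs
    refine h4 Y _ _ x s (fun s' hs' => ?_)
    unfold fl
    rw [if_neg (by omega)]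
  have hinv : ∀ e, fl acc lev h Y j (fl acc lev h Y j e Z) Z = e := by
    intro e
    funext s
    by_cases hs : lev s = j
    · have h5 : (Z.filter fun x => dlt acc h Y (fl acc lev h Y j e Z) x s = true) =
          (Z.filter fun x => dlt acc h Y e x s = true) :=
        Finset.filter_congr (fun x _ => by rw [hd e x s hs.le])
      have h6 : ∀ e : Ω → Bool, fl acc lev h Y j e Z s =
          xor (e s) (decide (Odd (Z.filter fun x => dlt acc h Y e x s = true).card)) :=
        fun e => if_pos hs
      rw [h6, h5, h6, Bool.xor_assoc, Bool.xor_self, Bool.xor_false]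
    · unfold fl
      rw [if_neg hs, if_neg hs]
  have hty : ∀ e, Typ acc lev h K j Y e → Typ acc lev h K j Y (fl acc lev h Y j e Z) := by
    intro e he s hs
    have h5 : dset acc h Y (fl acc lev h Y j e Z) s = dset acc h Y e s := by
      unfold dset
      exact Finset.filter_congr (fun x _ => by rw [hd e x s hs.le])
    rw [h5]
    exact he s hs
  refine Finset.card_nbij' (fun e => fl acc lev h Y j e Z) (fun e => fl acc lev h Y j e Z)
    ?_ ?_ (fun e _ => hinv e) (fun e _ => hinv e)
  · intro e he
    simp only [Finset.coe_filter, Finset.mem_univ, true_and, Set.mem_ofPred_eq] at he ⊢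
    exact ⟨hty e he.1, he.2⟩
  · intro e he
    simp only [Finset.coe_filter, Finset.mem_univ, true_and, Set.mem_ofPred_eq] at he ⊢
    rw [hinv]
    exact ⟨hty e he.1, he.2⟩

/-- CHV -/
theorem t_chv (h1 : T_EXB) : T_CHV := by
  intro X Yv Ω _ _ _ acc lev t h Y f hL
  obtain ⟨p1, p2, _, _⟩ := h1 X Yv Ω acc lev t h hL
  let E : (Ω → Bool) ≃ (Ω → Bool) :=
    { toFun := fun κ => el acc Y κ h
      invFun := fun e => tht acc Y e
      left_inv := by
        intro κ
        funext s
        show xor (el acc Y κ h s) (acc s Y (el acc Y κ h)) = κ s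
        rw [p1]
        generalize acc s Y (el acc Y κ h) = a
        cases a <;> cases κ s <;> rfl
      right_inv := by
        intro e
        refine (p2 Y (tht acc Y e) e (fun s => ?_)).symm
        unfold tht
        generalize acc s Y e = a
        cases a <;> cases e s <;> rfl }
  refine Fintype.sum_equiv E _ _ (fun κ => ?_)
  have h3 : tht acc Y (E κ) = κ := E.left_inv κ
  rw [h3]
  rfl

/-- EVC -/
theorem t_evc : T_EVC := by
  intro T m O O' hT hO
  induction T with
  | leaf b => rfl
  | node w l r ihl ihr =>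
    obtain ⟨hw, hl, hr⟩ := hT
    show (if O w then r.eval O else l.eval O) = (if O' w then r.eval O' else l.eval O')
    rw [hO w hw, ihl hl, ihr hr]

theorem acc_congr (h1 : T_EVC) {prog : List Bool → List Bool → DT} (hs : Small prog)
    {s : List Bool} {O O' : List Bool → Bool} (h : ∀ w, w.length ≤ s.length → O w = O' w) :
    acc prog s O ↔ acc prog s O' := by
  unfold acc
  refine exists_congr (fun w => and_congr_right (fun hw => ?_))
  obtain ⟨_, m, hm, hsh⟩ := hs s w hw
  have hm' : m ≤ s.length := by nlinarith [Nat.zero_le m]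
  rw [h1 _ m O O' hsh (fun w' hw' => h w' (by omega))]

open Classical in
/-- the operator whose fixed point is the oracle -/
noncomputable def Phi (prog : List Bool → List Bool → DT) (σ O : List Bool → Bool) :
    List Bool → Bool :=
  fun w => xor (σ w) (decide (∃ s, w = key s ∧ acc prog s O))

theorem Phi_congr (h1 : T_EVC) {prog : List Bool → List Bool → DT} (hs : Small prog)
    {σ σ' O O' : List Bool → Bool} {w : List Bool} (hσ : σ w = σ' w)
    (h : ∀ w', w'.length < w.length → O w' = O' w') : Phi prog σ O w = Phi prog σ' O' w := by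
  unfold Phi
  rw [hσ]
  congr 1
  rw [decide_eq_decide]
  refine exists_congr (fun s => and_congr_right (fun hw => ?_))
  refine acc_congr h1 hs (fun w' hw' => h w' ?_)
  rw [hw]
  unfold key
  simp only [List.length_cons]
  omega

/-- BLD -/
theorem t_bld (h1 : T_EVC) : T_BLD := by
  intro prog hs σ
  set It : ℕ → List Bool → Bool := fun k => (Phi prog σ)^[k] σ with hIt
  have hstep : ∀ k, It (k + 1) = Phi prog σ (It k) := by
    intro k
    rw [hIt]
    exact Function.iterate_succ_apply' _ _ _
  have hst : ∀ k w, w.length < k → ∀ k', k ≤ k' → It k' w = It k w := by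
    intro k
    induction k with
    | zero => intro w hw; omega
    | succ k ih =>
      intro w hw k' hk'
      obtain ⟨k'', rfl⟩ : ∃ k'', k' = k'' + 1 := ⟨k' - 1, by omega⟩
      rw [hstep, hstep]
      exact Phi_congr h1 hs rfl (fun w' hw' => ih w' (by omega) k'' (by omega))
  refine ⟨fun w => It (w.length + 1) w, fun w => ?_⟩
  show It (w.length + 1) w = Phi prog σ (fun w => It (w.length + 1) w) w
  rw [hstep]
  refine Phi_congr h1 hs rfl (fun w' hw' => ?_)
  exact hst (w'.length + 1) w' (by omega) w.length (by omega)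

/-- BLU -/
theorem t_blu (h1 : T_EVC) : T_BLU := by
  intro prog σ σ' O O' l hs hO hO' hσ
  have key : ∀ n w, w.length < n → w.length ≤ l → O w = O' w := by
    intro n
    induction n with
    | zero => intro w hw; omega
    | succ n ih =>
      intro w hw hwl
      have e1 : O w = Phi prog σ O w := hO w
      have e2 : O' w = Phi prog σ' O' w := hO' w
      rw [e1, e2]
      exact Phi_congr h1 hs (hσ w hwl) (fun w' hw' => ih w' (by omega) (by omega))
  intro w hw
  exact key (w.length + 1) w (by omega) hw

/-- SWA -/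
theorem t_swa : T_SWA := by
  classical
  intro Z Ω _ _ _ L p R B hp hB
  set mix : (Ω → Bool) → (Ω → Bool) → Ω → Bool := fun e a s => if L s then a s else e s with hmix
  have hmm : ∀ e a, mix (mix e a) (mix a e) = e := by
    intro e a
    funext s
    simp only [hmix]
    split_ifs <;> rfl
  have hpm : ∀ z e a, p z e a ↔ p z (mix e a) (mix e a) := by
    intro z e a
    refine hp z e (mix e a) a (mix e a) (fun s hs => ?_) (fun s hs => ?_)
    · simp only [hmix]; rw [if_neg hs]
    · simp only [hmix]; rw [if_pos hs]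
  let τ : ((Ω → Bool) × (Ω → Bool)) ≃ ((Ω → Bool) × (Ω → Bool)) :=
    { toFun := fun q => (mix q.1 q.2, mix q.2 q.1)
      invFun := fun q => (mix q.1 q.2, mix q.2 q.1)
      left_inv := fun q => Prod.ext (hmm q.1 q.2) (hmm q.2 q.1)
      right_inv := fun q => Prod.ext (hmm q.1 q.2) (hmm q.2 q.1) }
  set N : ℕ := Fintype.card (Ω → Bool) with hN
  have hN0 : 0 < N := Fintype.card_pos
  have hcard : ∀ a, (univ.filter fun x : Z × (Ω → Bool) => p x.1 x.2 a).card =
      ∑ z, ∑ e, if p z e a then 1 else 0 := by
    intro a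
    rw [Finset.card_filter, Fintype.sum_prod_type]
  have hcard' : (univ.filter fun x : Z × (Ω → Bool) => p x.1 x.2 x.2).card =
      ∑ z, ∑ e, if p z e e then 1 else 0 := by
    rw [Finset.card_filter, Fintype.sum_prod_type]
  have hT : ∑ a, (univ.filter fun x : Z × (Ω → Bool) => p x.1 x.2 a).card =
      N * (univ.filter fun x : Z × (Ω → Bool) => p x.1 x.2 x.2).card := by
    rw [Finset.sum_congr rfl (fun a _ => hcard a), hcard', Finset.sum_comm, Finset.mul_sum]
    refine Finset.sum_congr rfl (fun z _ => ?_)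
    have h1 : ∑ a : Ω → Bool, ∑ e : Ω → Bool, (if p z e a then 1 else 0 : ℕ) =
        ∑ q : (Ω → Bool) × (Ω → Bool), (if p z q.1 q.2 then 1 else 0) := by
      rw [Finset.sum_comm, Fintype.sum_prod_type]
    rw [h1]
    have h2 : ∀ q : (Ω → Bool) × (Ω → Bool), (if p z q.1 q.2 then 1 else 0 : ℕ) =
        (fun q : (Ω → Bool) × (Ω → Bool) => if p z q.1 q.1 then 1 else 0) (τ q) := by
      intro q
      show (if p z q.1 q.2 then 1 else 0 : ℕ) = if p z (mix q.1 q.2) (mix q.1 q.2) then 1 else 0
      by_cases h3 : p z q.1 q.2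
      · rw [if_pos h3, if_pos ((hpm z q.1 q.2).1 h3)]
      · rw [if_neg h3, if_neg (fun h4 => h3 ((hpm z q.1 q.2).2 h4))]
    rw [Finset.sum_congr rfl (fun q _ => h2 q), Equiv.sum_comp τ
      (fun q : (Ω → Bool) × (Ω → Bool) => if p z q.1 q.1 then 1 else 0), Fintype.sum_prod_type,
      Finset.mul_sum]
    refine Finset.sum_congr rfl (fun e _ => ?_)
    show (∑ _y : Ω → Bool, if p z e e then 1 else 0) = N * if p z e e then 1 else 0
    rw [Finset.sum_const, Finset.card_univ, smul_eq_mul]
  have h5 : N * ((univ.filter fun x : Z × (Ω → Bool) => p x.1 x.2 x.2).card * R) ≤ N * B := by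
    rw [← mul_assoc, ← hT, Finset.sum_mul]
    calc ∑ a, (univ.filter fun x : Z × (Ω → Bool) => p x.1 x.2 a).card * R
        ≤ ∑ _a : Ω → Bool, B := Finset.sum_le_sum (fun a _ => hB a)
      _ = N * B := by rw [Finset.sum_const, Finset.card_univ, smul_eq_mul]
  exact Nat.le_of_mul_le_mul_left h5 hN0

end Pool.Agent.H54.NB

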